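import Mathlib

set_option autoImplicit false

/-!
The Perron-Frobenius degree of the largest root of `t ^ 3 + 3 * t ^ 2 - 15 * t - 46` is `4`.
-/

namespace Pool.Agent.Results.MP_e10d7f_nt.PFDegree

open Polynomial

/-! ### Existence and location of the three real roots -/

private lemma root_in (u v : ℝ) (huv : u ≤ v)
    (h : (u ^ 3 + 3 * u ^ 2 - 15 * u - 46) * (v ^ 3 + 3 * v ^ 2 - 15 * v - 46) ≤ 0) :
    ∃ t ∈ Set.Icc u v, t ^ 3 + 3 * t ^ 2 - 15 * t - 46 = 0 := by
  have hc : ContinuousOn (fun t : ℝ => t ^ 3 + 3 * t ^ 2 - 15 * t - 46) (Set.uIcc u v) := by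
    fun_prop
  have h0 : (0 : ℝ) ∈ Set.uIcc (u ^ 3 + 3 * u ^ 2 - 15 * u - 46)
      (v ^ 3 + 3 * v ^ 2 - 15 * v - 46) := by
    rcases mul_nonpos_iff.1 h with ⟨h1, h2⟩ | ⟨h1, h2⟩
    · exact Set.mem_uIcc.2 (Or.inr ⟨h2, h1⟩)
    · exact Set.mem_uIcc.2 (Or.inl ⟨h1, h2⟩)
  obtain ⟨t, ht, ht0⟩ := intermediate_value_uIcc hc h0
  exact ⟨t, by rwa [Set.uIcc_of_le huv] at ht, ht0⟩

private lemma three_roots : ∃ a b c : ℝ, 3.8 < a ∧ a < 4 ∧ -3.5 < b ∧ b < -3 ∧ -3.8 < c ∧ c < -3.5 ∧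
    a ^ 3 + 3 * a ^ 2 - 15 * a - 46 = 0 ∧ b ^ 3 + 3 * b ^ 2 - 15 * b - 46 = 0 ∧
    c ^ 3 + 3 * c ^ 2 - 15 * c - 46 = 0 := by
  obtain ⟨a, ⟨ha1, ha2⟩, ha⟩ := root_in 3.8 4 (by norm_num) (by norm_num)
  obtain ⟨b, ⟨hb1, hb2⟩, hb⟩ := root_in (-3.5) (-3) (by norm_num) (by norm_num)
  obtain ⟨c, ⟨hc1, hc2⟩, hc⟩ := root_in (-3.8) (-3.5) (by norm_num) (by norm_num)
  refine ⟨a, b, c, lt_of_le_of_ne ha1 ?_, lt_of_le_of_ne ha2 ?_, lt_of_le_of_ne hb1 ?_,
    lt_of_le_of_ne hb2 ?_, lt_of_le_of_ne hc1 ?_, lt_of_le_of_ne hc2 ?_, ha, hb, hc⟩ <;>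
  · rintro h
    subst h
    norm_num at *

/-- The cubic splits over the complex numbers with the three real roots found above. -/
private lemma factor : ∃ a b c : ℝ, 3.8 < a ∧ a < 4 ∧ -3.8 < b ∧ b < 0 ∧ -3.8 < c ∧ c < 0 ∧
    a ^ 3 + 3 * a ^ 2 - 15 * a - 46 = 0 ∧
    ∀ z : ℂ, z ^ 3 + 3 * z ^ 2 - 15 * z - 46 = (z - a) * (z - b) * (z - c) := by
  obtain ⟨a, b, c, ha1, ha2, hb1, hb2, hc1, hc2, ha, hb, hc⟩ := three_roots
  refine ⟨a, b, c, ha1, ha2, by linarith, by linarith, hc1, by linarith, ha, ?_⟩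
  have hab : a - b ≠ 0 := by
    intro h
    linarith
  have hac : a - c ≠ 0 := by
    intro h
    linarith
  have hbc : b - c ≠ 0 := by
    intro h
    linarith
  have e1 : a ^ 2 + a * b + b ^ 2 + 3 * (a + b) - 15 = 0 := by
    apply mul_left_cancel₀ hab
    linear_combination ha - hb
  have e2 : a ^ 2 + a * c + c ^ 2 + 3 * (a + c) - 15 = 0 := by
    apply mul_left_cancel₀ hac
    linear_combination ha - hc
  have s1 : a + b + c = -3 := by
    have : a + b + c + 3 = 0 := by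
      apply mul_left_cancel₀ hbc
      linear_combination e1 - e2
    linarith
  have hc' : c = -3 - a - b := by linarith
  intro z
  have e1' : (a : ℂ) ^ 2 + a * b + b ^ 2 + 3 * (a + b) - 15 = 0 := by exact_mod_cast e1
  have ha' : (a : ℂ) ^ 3 + 3 * a ^ 2 - 15 * a - 46 = 0 := by exact_mod_cast ha
  rw [hc']
  push_cast
  linear_combination (z - a) * e1' + ha'

/-! ### `1, lam, lam ^ 2` are linearly independent over the rationals -/

private lemma no_rat_root (x : ℚ) : x ^ 3 + 3 * x ^ 2 - 15 * x - 46 ≠ 0 := by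
  intro h
  have hint : IsIntegral ℤ x := by
    refine ⟨X ^ 3 + 3 * X ^ 2 - 15 * X - 46, ?_, ?_⟩
    · monicity!
    · simp [eval₂_eq_eval_map]
      linarith
  obtain ⟨n, hn⟩ := IsIntegrallyClosed.isIntegral_iff.1 hint
  rw [← hn] at h
  simp only [algebraMap_int_eq, eq_intCast] at h
  have h' : n ^ 3 + 3 * n ^ 2 - 15 * n - 46 = 0 := by exact_mod_cast h
  have h1 : n ≤ 3 := by
    by_contra hc
    push Not at hc
    nlinarith [mul_pos (show (0:ℤ) < n by linarith) (show (0:ℤ) < n by linarith)]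
  have h2 : -4 ≤ n := by
    by_contra hc
    push Not at hc
    nlinarith [mul_pos (show (0:ℤ) < -n by linarith) (show (0:ℤ) < -n by linarith)]
  interval_cases n <;> omega

private lemma indep (lam : ℝ) (h : lam ^ 3 + 3 * lam ^ 2 - 15 * lam - 46 = 0) (a b c : ℚ)
    (h2 : (a : ℝ) * lam ^ 2 + b * lam + c = 0) : a = 0 ∧ b = 0 ∧ c = 0 := by
  have hdeg : (X ^ 3 + 3 * X ^ 2 - 15 * X - 46 : ℚ[X]).natDegree = 3 := by
    compute_degree!
  have hmon : (X ^ 3 + 3 * X ^ 2 - 15 * X - 46 : ℚ[X]).Monic := by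
    monicity!
  have hirr : Irreducible (X ^ 3 + 3 * X ^ 2 - 15 * X - 46 : ℚ[X]) := by
    refine Polynomial.irreducible_of_degree_le_three_of_not_isRoot ?_ ?_
    · rw [hdeg]; simp
    · intro x hx
      apply no_rat_root x
      simpa [IsRoot.def] using hx
  have hmin : X ^ 3 + 3 * X ^ 2 - 15 * X - 46 = minpoly ℚ lam :=
    minpoly.eq_of_irreducible_of_monic hirr
      (by simp only [map_sub, map_add, map_mul, map_pow, aeval_X, map_ofNat]; exact h) hmon
  have hdvd : (X ^ 3 + 3 * X ^ 2 - 15 * X - 46 : ℚ[X]) ∣ C a * X ^ 2 + C b * X + C c := by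
    rw [hmin]
    apply minpoly.dvd
    simpa using h2
  have hz : (C a * X ^ 2 + C b * X + C c : ℚ[X]) = 0 := by
    by_contra hne
    have hle := Polynomial.natDegree_le_of_dvd hdvd hne
    rw [hdeg] at hle
    have : (C a * X ^ 2 + C b * X + C c : ℚ[X]).natDegree ≤ 2 := by compute_degree
    omega
  refine ⟨?_, ?_, ?_⟩
  · simpa using congrArg (fun p => coeff p 2) hz
  · simpa using congrArg (fun p => coeff p 1) hz
  · simpa using congrArg (fun p => coeff p 0) hz

private lemma indepZ (lam : ℝ) (h : lam ^ 3 + 3 * lam ^ 2 - 15 * lam - 46 = 0) (a b c : ℤ)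
    (h2 : (a : ℝ) * lam ^ 2 + b * lam + c = 0) : a = 0 ∧ b = 0 ∧ c = 0 := by
  have := indep lam h a b c (by push_cast; exact h2)
  exact_mod_cast this

/-! ### An eigenvalue of maximal modulus -/

private lemma exists_mu {n : ℕ} (B : Matrix (Fin n) (Fin n) ℂ) {lam : ℝ} (hl : 0 < lam)
    (h : spectralRadius ℂ B = ENNReal.ofReal lam) :
    ∃ μ : ℂ, ‖μ‖ = lam ∧ Matrix.det (Matrix.scalar (Fin n) μ - B) = 0 := by
  have hfin : (spectrum ℂ B).Finite := Matrix.finite_spectrum B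
  have hne : (spectrum ℂ B).Nonempty := by
    by_contra hcon
    rw [Set.not_nonempty_iff_eq_empty] at hcon
    rw [spectralRadius, hcon] at h
    simp at h
    linarith
  obtain ⟨μ, hμ, hmax⟩ := Set.exists_max_image (spectrum ℂ B) (fun z => ‖z‖₊) hfin hne
  have hsr : spectralRadius ℂ B = (‖μ‖₊ : ENNReal) := by
    apply le_antisymm
    · exact iSup₂_le (fun k hk => by exact_mod_cast hmax k hk)
    · exact le_iSup₂ (α := ENNReal) μ hμ
  refine ⟨μ, ?_, ?_⟩
  · rw [hsr] at h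
    have : (‖μ‖₊ : ENNReal) = ENNReal.ofReal ‖μ‖ := by
      rw [ofReal_norm]; rfl
    rw [this] at h
    exact (ENNReal.ofReal_eq_ofReal_iff (norm_nonneg _) hl.le).1 h
  · rw [← Matrix.eval_charpoly]
    exact Matrix.mem_spectrum_iff_isRoot_charpoly.1 hμ

/-! ### Integral polynomial relations of small degree for a number of modulus `lam` -/

private lemma quad_case (lam : ℝ) (h : lam ^ 3 + 3 * lam ^ 2 - 15 * lam - 46 = 0)
    (s d : ℤ) (μ : ℂ) (hμ : ‖μ‖ = lam) (hq : μ ^ 2 - s * μ + d = 0) : False := by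
  have hn : μ.re ^ 2 + μ.im ^ 2 = lam ^ 2 := by
    rw [← hμ, ← Complex.sq_norm_sub_sq_im] ; ring
  have hre := congrArg Complex.re hq
  have him := congrArg Complex.im hq
  simp [pow_two] at hre him
  by_cases h0 : μ.im = 0
  · rw [h0] at hn hre
    have : (μ.re - lam) * (μ.re + lam) = 0 := by linear_combination hn
    rcases mul_eq_zero.1 this with h1 | h1
    · have h2 : μ.re = lam := by linarith
      rw [h2] at hre
      have := indepZ lam h 1 (-s) d (by push_cast; linear_combination hre)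
      omega
    · have h2 : μ.re = -lam := by linarith
      rw [h2] at hre
      have := indepZ lam h 1 s d (by push_cast; linear_combination hre)
      omega
  · have h1 : 2 * μ.re = s := by
      have : μ.im * (2 * μ.re - s) = 0 := by linear_combination him
      rcases mul_eq_zero.1 this with h2 | h2
      · exact absurd h2 h0
      · linarith
    have := indepZ lam h 1 0 (-d) (by push_cast; linear_combination -hn - hre - (-μ.re) * h1)
    omega

private lemma cubic_case (lam : ℝ) (h : lam ^ 3 + 3 * lam ^ 2 - 15 * lam - 46 = 0)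
    (s e d : ℤ) (μ : ℂ) (hμ : ‖μ‖ = lam) (hq : μ ^ 3 - s * μ ^ 2 + e * μ - d = 0) :
    (s = -3 ∧ e = -15 ∧ d = 46) ∨ (s = 3 ∧ e = -15 ∧ d = -46) := by
  have hn : μ.re ^ 2 + μ.im ^ 2 = lam ^ 2 := by
    rw [← hμ, ← Complex.sq_norm_sub_sq_im] ; ring
  have hre := congrArg Complex.re hq
  have him := congrArg Complex.im hq
  simp [pow_succ] at hre him
  by_cases h0 : μ.im = 0
  · rw [h0] at hn hre
    have : (μ.re - lam) * (μ.re + lam) = 0 := by linear_combination hn
    rcases mul_eq_zero.1 this with h1 | h1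
    · have h2 : μ.re = lam := by linarith
      rw [h2] at hre
      have := indepZ lam h (-3 - s) (15 + e) (46 - d) (by push_cast; linear_combination hre - h)
      left
      omega
    · have h2 : μ.re = -lam := by linarith
      rw [h2] at hre
      have := indepZ lam h (3 - s) (-15 - e) (-46 - d) (by push_cast; linear_combination hre + h)
      right
      omega
  · exfalso
    have h1 : 3 * μ.re ^ 2 - μ.im ^ 2 - 2 * s * μ.re + e = 0 := by
      have : μ.im * (3 * μ.re ^ 2 - μ.im ^ 2 - 2 * s * μ.re + e) = 0 := by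
        linear_combination him
      rcases mul_eq_zero.1 this with h2 | h2
      · exact absurd h2 h0
      · linarith
    have he : (e : ℝ) = -3 * μ.re ^ 2 + μ.im ^ 2 + 2 * s * μ.re := by linarith
    have hd : (d : ℝ) = μ.re ^ 3 - 3 * μ.re * μ.im ^ 2 - s * (μ.re ^ 2 - μ.im ^ 2)
        + e * μ.re := by linear_combination -hre
    have key : (lam ^ 2) ^ 3 - e * (lam ^ 2) ^ 2 + s * d * lam ^ 2 - d ^ 2 = 0 := by
      rw [hd, he, ← hn]
      ring
    have := indepZ lam h (435 - 24 * e + s * d) (39 - e) (-3266 + 138 * e - d ^ 2) (by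
      push_cast
      linear_combination key - h * (lam ^ 3 - 3 * lam ^ 2 + (24 - e) * lam - 71 + 3 * e))
    obtain ⟨h3, h4, h5⟩ := this
    have he' : e = 39 := by omega
    subst he'
    have hsd : s * d = 501 := by omega
    have hdd : d ^ 2 = 2116 := by omega
    have : d = 46 ∨ d = -46 := by
      have : (d - 46) * (d + 46) = 0 := by linear_combination hdd
      rcases mul_eq_zero.1 this with h6 | h6
      · left; omega
      · right; omega
    rcases this with rfl | rfl <;> omega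

/-! ### No primitive matrix of size at most three -/

private lemma size_one (lam : ℝ) (h : lam ^ 3 + 3 * lam ^ 2 - 15 * lam - 46 = 0)
    (A : Matrix (Fin 1) (Fin 1) ℤ) (μ : ℂ) (hμ : ‖μ‖ = lam)
    (hd : Matrix.det (Matrix.scalar (Fin 1) μ - A.map (Int.cast : ℤ → ℂ)) = 0) : False := by
  simp only [Matrix.det_fin_one, Matrix.sub_apply, Matrix.scalar_apply, Matrix.diagonal_apply_eq,
    Matrix.map_apply] at hd
  apply quad_case lam h (A 0 0) 0 μ hμ
  push_cast
  linear_combination μ * hd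

private lemma size_two (lam : ℝ) (h : lam ^ 3 + 3 * lam ^ 2 - 15 * lam - 46 = 0)
    (A : Matrix (Fin 2) (Fin 2) ℤ) (μ : ℂ) (hμ : ‖μ‖ = lam)
    (hd : Matrix.det (Matrix.scalar (Fin 2) μ - A.map (Int.cast : ℤ → ℂ)) = 0) : False := by
  simp [Matrix.det_fin_two] at hd
  apply quad_case lam h (A 0 0 + A 1 1) (A 0 0 * A 1 1 - A 0 1 * A 1 0) μ hμ
  push_cast
  linear_combination hd

private lemma size_three (lam : ℝ) (h : lam ^ 3 + 3 * lam ^ 2 - 15 * lam - 46 = 0)
    (A : Matrix (Fin 3) (Fin 3) ℤ) (hA : ∀ i j, 0 ≤ A i j) (μ : ℂ) (hμ : ‖μ‖ = lam)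
    (hd : Matrix.det (Matrix.scalar (Fin 3) μ - A.map (Int.cast : ℤ → ℂ)) = 0) : False := by
  simp [Matrix.det_fin_three] at hd
  have hc := cubic_case lam h (A 0 0 + A 1 1 + A 2 2)
    (A 0 0 * A 1 1 - A 0 1 * A 1 0 + (A 0 0 * A 2 2 - A 0 2 * A 2 0)
      + (A 1 1 * A 2 2 - A 1 2 * A 2 1))
    (A 0 0 * A 1 1 * A 2 2 - A 0 0 * A 1 2 * A 2 1 - A 0 1 * A 1 0 * A 2 2
      + A 0 1 * A 1 2 * A 2 0 + A 0 2 * A 1 0 * A 2 1 - A 0 2 * A 1 1 * A 2 0) μ hμ (by
    push_cast
    linear_combination hd)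
  rcases hc with ⟨h1, -, -⟩ | ⟨h1, h2, h3⟩
  · have := hA 0 0
    have := hA 1 1
    have := hA 2 2
    omega
  · -- Cayley-Hamilton and traces of powers
    have key : ∀ i j : Fin 3, (A ^ 3) i j - (A 0 0 + A 1 1 + A 2 2) * (A ^ 2) i j
        + (A 0 0 * A 1 1 - A 0 1 * A 1 0 + (A 0 0 * A 2 2 - A 0 2 * A 2 0)
          + (A 1 1 * A 2 2 - A 1 2 * A 2 1)) * A i j
        - (A 0 0 * A 1 1 * A 2 2 - A 0 0 * A 1 2 * A 2 1 - A 0 1 * A 1 0 * A 2 2
          + A 0 1 * A 1 2 * A 2 0 + A 0 2 * A 1 0 * A 2 1 - A 0 2 * A 1 1 * A 2 0)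
          * (1 : Matrix (Fin 3) (Fin 3) ℤ) i j = 0 := by
      intro i j
      fin_cases i <;> fin_cases j <;>
        simp [pow_succ, Matrix.mul_apply, Fin.sum_univ_three] <;> ring
    rw [h1, h2, h3] at key
    have hCH : A ^ 3 = (3 : ℤ) • A ^ 2 + (15 : ℤ) • A
        - (46 : ℤ) • (1 : Matrix (Fin 3) (Fin 3) ℤ) := by
      ext i j
      have := key i j
      simp only [Matrix.sub_apply, Matrix.add_apply, Matrix.smul_apply, smul_eq_mul]
      linarith
    have ht : ∀ k : ℕ, (A ^ (k + 3)).trace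
        = 3 * (A ^ (k + 2)).trace + 15 * (A ^ (k + 1)).trace - 46 * (A ^ k).trace := by
      intro k
      have : A ^ (k + 3) = (3 : ℤ) • A ^ (k + 2) + (15 : ℤ) • A ^ (k + 1) - (46 : ℤ) • A ^ k := by
        rw [pow_add A k 3, hCH]
        simp only [mul_sub, mul_add, mul_smul_comm, mul_one, pow_add, pow_one]
      rw [this]
      simp only [Matrix.trace_sub, Matrix.trace_add, Matrix.trace_smul, smul_eq_mul]
    have t0 : (A ^ 0).trace = 3 := by simp
    have t1 : (A ^ 1).trace = 3 := by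
      rw [pow_one, Matrix.trace_fin_three]
      exact h1
    have t2 : (A ^ 2).trace = 39 := by
      rw [pow_two, Matrix.trace_fin_three]
      simp only [Matrix.mul_apply, Fin.sum_univ_three]
      linear_combination (A 0 0 + A 1 1 + A 2 2 + 3) * h1 - 2 * h2
    have t3 : (A ^ 3).trace = 24 := by rw [ht 0, zero_add, zero_add, t2, t1, t0]; norm_num
    have t4 : (A ^ 4).trace = 519 := by rw [ht 1, t3, t2, t1]; norm_num
    have t5 : (A ^ 5).trace = 123 := by rw [ht 2, t4, t3, t2]; norm_num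
    have t6 : (A ^ 6).trace = 7050 := by rw [ht 3, t5, t4, t3]; norm_num
    have t7 : (A ^ 7).trace = -879 := by rw [ht 4, t6, t5, t4]; norm_num
    have hpos : 0 ≤ (A ^ 7).trace :=
      Finset.sum_nonneg (fun i _ => by
        simpa using Matrix.pow_apply_nonneg hA 7 i i)
    omega

/-! ### A primitive matrix of size four -/

private def M : Matrix (Fin 4) (Fin 4) ℤ :=
  !![0, 1, 0, 0; 12, 0, 1, 0; 1, 0, 0, 6; 1, 0, 2, 0]

private lemma M_primitive : M.IsPrimitive := by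
  have h2 : M ^ 2 = !![12, 0, 1, 0; 1, 12, 0, 6; 6, 1, 12, 0; 2, 1, 0, 12] := by
    rw [pow_two]
    ext i j
    fin_cases i <;> fin_cases j <;> simp [M, Matrix.mul_apply, Fin.sum_univ_four]
  have h5 : M ^ 5 = M ^ 2 * M ^ 2 * M := by
    rw [← pow_add, ← pow_succ]
  refine ⟨?_, 5, by norm_num, ?_⟩
  · intro i j
    fin_cases i <;> fin_cases j <;> simp [M]
  · intro i j
    rw [h5, h2]
    fin_cases i <;> fin_cases j <;> simp [M, Matrix.mul_apply, Fin.sum_univ_four]

private lemma M_det (z : ℂ) : Matrix.det (Matrix.scalar (Fin 4) z - M.map (Int.cast : ℤ → ℂ))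
    = (z ^ 3 + 3 * z ^ 2 - 15 * z - 46) * (z - 3) := by
  simp [M, Matrix.det_succ_row_zero, Fin.sum_univ_succ, Matrix.submatrix, Fin.succAbove]
  ring

/-- **The Perron-Frobenius degree of the largest root `lam` of `t ^ 3 + 3 * t ^ 2 - 15 * t - 46`
is four.** -/
theorem result : ∃ lam : ℝ, IsGreatest {t : ℝ | t ^ 3 + 3 * t ^ 2 - 15 * t - 46 = 0} lam ∧
    IsLeast {n : ℕ | ∃ A : Matrix (Fin n) (Fin n) ℤ, A.IsPrimitive ∧
      spectralRadius ℂ (A.map (Int.cast : ℤ → ℂ)) = ENNReal.ofReal lam} 4 := by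
  obtain ⟨a, b, c, ha1, ha2, hb1, hb2, hc1, hc2, ha, hf⟩ := factor
  refine ⟨a, ⟨ha, ?_⟩, ⟨M, M_primitive, ?_⟩, ?_⟩
  · intro t ht
    have h1 := hf (t : ℂ)
    have h2 : (t - a) * (t - b) * (t - c) = 0 := by
      have h3 : ((t : ℂ) ^ 3 + 3 * (t : ℂ) ^ 2 - 15 * t - 46) = 0 := by exact_mod_cast ht
      rw [h3] at h1
      exact_mod_cast h1.symm
    rcases mul_eq_zero.1 h2 with h3 | h3
    · rcases mul_eq_zero.1 h3 with h4 | h4 <;> linarith
    · linarith
  · apply le_antisymm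
    · refine iSup₂_le (fun z hz => ?_)
      have h0 := Matrix.mem_spectrum_iff_isRoot_charpoly.1 hz
      rw [Polynomial.IsRoot.def, Matrix.eval_charpoly, M_det, hf] at h0
      have hz' : ‖z‖ ≤ a := by
        rcases mul_eq_zero.1 h0 with h1 | h1
        · rcases mul_eq_zero.1 h1 with h2 | h2
          · rcases mul_eq_zero.1 h2 with h3 | h3
            · rw [sub_eq_zero.1 h3, Complex.norm_real, Real.norm_eq_abs, abs_of_pos (by linarith)]
            · rw [sub_eq_zero.1 h3, Complex.norm_real, Real.norm_eq_abs, abs_of_neg hb2]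
              linarith
          · rw [sub_eq_zero.1 h2, Complex.norm_real, Real.norm_eq_abs, abs_of_neg hc2]
            linarith
        · rw [sub_eq_zero.1 h1]
          norm_num
          linarith
      rw [← enorm_eq_nnnorm, ← ofReal_norm]
      exact ENNReal.ofReal_le_ofReal hz'
    · have hmem : (a : ℂ) ∈ spectrum ℂ (M.map (Int.cast : ℤ → ℂ)) := by
        rw [Matrix.mem_spectrum_iff_isRoot_charpoly, Polynomial.IsRoot.def, Matrix.eval_charpoly,
          M_det, hf]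
        simp
      have : ENNReal.ofReal a = (‖(a : ℂ)‖₊ : ENNReal) := by
        rw [← enorm_eq_nnnorm, ← ofReal_norm, Complex.norm_real, Real.norm_eq_abs,
          abs_of_pos (by linarith)]
      rw [this]
      exact le_iSup₂ (α := ENNReal) (a : ℂ) hmem
  · rintro n ⟨A, hA, hr⟩
    by_contra hn
    push Not at hn
    obtain ⟨μ, hμ, hdet⟩ := exists_mu _ (show (0:ℝ) < a by linarith) hr
    interval_cases n
    · simp at hdet
    · exact size_one a ha A μ hμ hdet
    · exact size_two a ha A μ hμ hdet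
    · exact size_three a ha A hA.nonneg μ hμ hdet

end Pool.Agent.Results.MP_e10d7f_nt.PFDegree
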